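import Pool.Agent.H63.WS.Stm

/-! Project WS (helper63), task COMBO. -/

set_option autoImplicit false

namespace Pool.Agent.H63.WS.PCombo

open Finset Pool.Agent.H63.WS

theorem bdd_Uc {X : Type} {y : X → ℝ} (hy : ∀ v, y v ∈ Set.Icc (-1 : ℝ) 1) (k : ℕ) :
    Bdd fun v => Uc k (y v) := by
  have hc : ContinuousOn (fun t : ℝ => Uc k t) (Set.Icc (-1) 1) := by
    unfold Uc
    exact (Polynomial.continuous _).continuousOn
  obtain ⟨C, hC⟩ := isCompact_Icc.exists_bound_of_continuousOn hc
  exact ⟨C, fun v => hC _ (hy v)⟩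

theorem bdd_mul {X : Type} {f g : X → ℝ} (hf : Bdd f) (hg : Bdd g) : Bdd fun v => f v * g v := by
  obtain ⟨C, hC⟩ := hf
  obtain ⟨D, hD⟩ := hg
  refine ⟨C * D, fun v => ?_⟩
  rw [abs_mul]
  exact mul_le_mul (hC v) (hD v) (abs_nonneg _) ((abs_nonneg _).trans (hC v))

theorem bdd_add {X : Type} {f g : X → ℝ} (hf : Bdd f) (hg : Bdd g) : Bdd fun v => f v + g v := by
  obtain ⟨C, hC⟩ := hf
  obtain ⟨D, hD⟩ := hg
  exact ⟨C + D, fun v => (abs_add_le _ _).trans (add_le_add (hC v) (hD v))⟩

theorem bdd_const {X : Type} (c : ℝ) : Bdd fun _ : X => c := ⟨|c|, fun _ => le_rfl⟩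

theorem bdd_prod {X ι : Type} (s : Finset ι) (f : ι → X → ℝ) (hf : ∀ i, Bdd (f i)) :
    Bdd fun v => ∏ i ∈ s, f i v := by
  classical
  induction s using Finset.induction_on with
  | empty => simpa using bdd_const 1
  | insert i s hi ih =>
    simp only [prod_insert hi]
    exact bdd_mul (hf i) ih

theorem bdd_sum {X α : Type} (s : Finset α) (f : α → X → ℝ) (hf : ∀ i, Bdd (f i)) :
    Bdd fun v => ∑ i ∈ s, f i v := by
  classical
  induction s using Finset.induction_on with
  | empty => simpa using bdd_const 0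
  | insert i s hi ih =>
    simp only [sum_insert hi]
    exact bdd_add (hf i) ih

theorem mean_zero {X : Type} {L : (X → ℝ) → ℝ} (hL : IsMean L) : L (fun _ => 0) = 0 := by
  have h := hL.smul 0 (fun _ => 1) (bdd_const 1)
  simpa using h

theorem mean_sum {X α : Type} {L : (X → ℝ) → ℝ} (hL : IsMean L) (s : Finset α)
    (f : α → X → ℝ) (hf : ∀ i, Bdd (f i)) :
    L (fun v => ∑ i ∈ s, f i v) = ∑ i ∈ s, L (f i) := by
  classical
  induction s using Finset.induction_on with
  | empty => simpa using mean_zero hL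
  | insert i s hi ih =>
    simp only [sum_insert hi]
    rw [hL.add (f i) (fun v => ∑ i ∈ s, f i v) (hf i) (bdd_sum s f hf), ih]

theorem t_combo : S_COMBO := by
  intro X ι _ _ L hL x hx A k hV B hB M hM hMA c
  have h1 : (fun v => ∏ i, comb (M i) (c i) (x i v)) = fun v =>
      ∑ a ∈ Fintype.piFinset fun i => range (M i), (∏ i, c i (a i)) * ∏ i, Uc (a i) (x i v) := by
    funext v
    unfold comb
    rw [Finset.prod_univ_sum]
    exact Finset.sum_congr rfl fun a _ => prod_mul_distrib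
  have hbU : ∀ a : ι → ℕ, Bdd fun v => ∏ i, Uc (a i) (x i v) := fun a =>
    bdd_prod univ (fun i v => Uc (a i) (x i v)) fun i => bdd_Uc (hx i) (a i)
  rw [h1, mean_sum hL _ (fun (a : ι → ℕ) v => (∏ i, c i (a i)) * ∏ i, Uc (a i) (x i v))
    fun a => bdd_mul (bdd_const _) (hbU a)]
  rw [Finset.sum_eq_single (0 : ι → ℕ)]
  · rw [hL.smul _ _ (hbU 0)]
    have h2 : (fun v => ∏ i, Uc ((0 : ι → ℕ) i) (x i v)) = fun _ => 1 := by
      funext v
      refine prod_eq_one fun i _ => ?_
      simp [Uc]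
    rw [h2, hL.one, mul_one]
    rfl
  · intro a ha ha0
    rw [hL.smul _ _ (hbU a), hV a ha0 ?_, mul_zero]
    refine lt_of_le_of_lt (card_le_card fun i hi => ?_) hB
    by_contra hiB
    have h2 := mem_range.mp (Fintype.mem_piFinset.mp ha i)
    have h3 := hMA i hiB
    have h4 := (mem_filter.mp hi).2
    omega
  · intro h
    exfalso
    apply h
    rw [Fintype.mem_piFinset]
    intro i
    rw [mem_range]
    exact hM i

end Pool.Agent.H63.WS.PCombo

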